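import Pool.Agent.Lib.MP_eea824_ag.Quart

namespace Pool.Agent.Results.MP_eea824_ag.OneShared

open MvPolynomial Pool.Agent.Lib.MP_eea824_ag

/-- Real zero amalgamation fails for every number l of shared variables with l at least 1,
for amalgams of any degree. -/
theorem result (l m n : ℕ) (hl : 1 ≤ l) (hm : 2 ≤ m) (hn : 1 ≤ n) :
    ∃ (p : MvPolynomial (Fin l ⊕ Fin m) ℝ) (q : MvPolynomial (Fin l ⊕ Fin n) ℝ),
      RZ p ∧ RZ q ∧ p.totalDegree ≤ 4 ∧ q.totalDegree ≤ 4 ∧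
      aeval (Sum.elim X fun _ => 0) p =
        (aeval (Sum.elim X fun _ => 0) q : MvPolynomial (Fin l) ℝ) ∧
      ¬ ∃ r : MvPolynomial (Fin l ⊕ Fin m ⊕ Fin n) ℝ, RZ r ∧
        aeval (Sum.elim (fun i => X (Sum.inl i))
          (Sum.elim (fun j => X (Sum.inr j)) fun _ => 0)) r = p ∧
        aeval (Sum.elim (fun i => X (Sum.inl i))
          (Sum.elim (fun _ => 0) fun k => X (Sum.inr k))) r = q :=
  Gar.quart l m n hl hm hn

end Pool.Agent.Results.MP_eea824_ag.OneShared
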