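import Pool.Agent.Lib.MP_eea824_ag.Defs
import Pool.Agent.Lib.MP_eea824_ag.Cu3

/-! Two cubic real zero polynomials which agree on their shared variables (one shared variable is
enough) and have no real zero amalgam of any degree. -/

namespace Pool.Agent.Results.MP_eea824_ag.OneSharedCubic

open MvPolynomial Pool.Agent.Lib.MP_eea824_ag Pool.Agent.Lib.MP_eea824_ag.Cu

section deg

variable {σ : Type*} {f g : MvPolynomial σ ℝ} {i j : ℕ}

theorem dadd (hf : f.totalDegree ≤ i) (hg : g.totalDegree ≤ i) : (f + g).totalDegree ≤ i :=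
  (totalDegree_add _ _).trans (max_le hf hg)

theorem dsub (hf : f.totalDegree ≤ i) (hg : g.totalDegree ≤ i) : (f - g).totalDegree ≤ i :=
  (totalDegree_sub _ _).trans (max_le hf hg)

theorem dmul (hf : f.totalDegree ≤ i) (hg : g.totalDegree ≤ j) : (f * g).totalDegree ≤ i + j :=
  (totalDegree_mul _ _).trans (add_le_add hf hg)

theorem dnum (k : ℕ) [k.AtLeastTwo] (hg : g.totalDegree ≤ j) :
    ((ofNat(k) : MvPolynomial σ ℝ) * g).totalDegree ≤ j := by
  have : (ofNat(k) : MvPolynomial σ ℝ).totalDegree ≤ 0 := by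
    rw [← map_ofNat (C : ℝ →+* MvPolynomial σ ℝ) k, totalDegree_C]
  simpa using dmul this hg

theorem hh_deg {t x a b c d : MvPolynomial σ ℝ} (ht : t.totalDegree ≤ 1) (hx : x.totalDegree ≤ 1)
    (ha : a.totalDegree ≤ 1) (hb : b.totalDegree ≤ 1) (hc : c.totalDegree ≤ 1)
    (hd : d.totalDegree ≤ 1) : (hh t x a b c d).totalDegree ≤ 3 := by
  have d1 := dadd ht hx
  have d2 := dadd ht (dnum 2 hx)
  have d3 := dadd ht (dnum 3 hx)
  have u := dadd (dmul ha ha) (dmul hb hb)
  have v := dadd (dmul hc hc) (dmul hd hd)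
  exact dadd (dsub (dsub (dmul (dmul d1 d2) d3) (dmul d1 (dadd u (dnum 25 v))))
    (dmul d3 (dadd (dnum 25 u) v))) (dnum 50 (dsub (dadd (dadd
      (dmul (dsub (dmul ha ha) (dmul hb hb)) hc) (dnum 2 (dmul (dmul ha hb) hd)))
      (dmul ha (dsub (dmul hc hc) (dmul hd hd)))) (dnum 2 (dmul (dmul hb hc) hd))))

end deg

theorem map_hh {σ A : Type*} [CommRing A] [Algebra ℝ A] (u : σ → A)
    (t x a b c d : MvPolynomial σ ℝ) : aeval u (hh t x a b c d) =
      hh (aeval u t) (aeval u x) (aeval u a) (aeval u b) (aeval u c) (aeval u d) := by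
  simp only [hh, cc, map_add, map_sub, map_mul, map_ofNat]

theorem lin_ne (lam : ℂ) (h : lam.im ≠ 0) (a : ℝ) : 1 + lam * a ≠ 0 := by
  intro he
  have h1 := congrArg Complex.re he
  have h2 := congrArg Complex.im he
  simp only [Complex.add_re, Complex.one_re, Complex.mul_re, Complex.ofReal_re, Complex.ofReal_im,
    Complex.zero_re, Complex.add_im, Complex.one_im, Complex.mul_im, Complex.zero_im] at h1 h2
  have : a = 0 := by
    have : lam.im * a = 0 := by linarith
    exact (mul_eq_zero.mp this).resolve_left h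
  subst this
  simp at h1

/-- which of the six variables a variable is sent to -/
def ψ (l m n : ℕ) : Fin l ⊕ Fin m ⊕ Fin n → Option (Fin 6)
  | Sum.inl i => if i.val = 0 then some 0 else none
  | Sum.inr (Sum.inl j) => if h : j.val < 4 then some ⟨j.val + 1, by omega⟩ else none
  | Sum.inr (Sum.inr k) => if k.val = 0 then some 5 else none

theorem result (l m n : ℕ) (hl : 1 ≤ l) (hm : 4 ≤ m) (hn : 1 ≤ n) :
    ∃ (p : MvPolynomial (Fin l ⊕ Fin m) ℝ) (q : MvPolynomial (Fin l ⊕ Fin n) ℝ),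
      RZ p ∧ RZ q ∧ p.totalDegree ≤ 3 ∧ q.totalDegree ≤ 3 ∧
      (aeval (Sum.elim X fun _ => 0) p : MvPolynomial (Fin l) ℝ) =
        aeval (Sum.elim X fun _ => 0) q ∧
      ¬ ∃ r : MvPolynomial (Fin l ⊕ Fin m ⊕ Fin n) ℝ, RZ r ∧
        aeval (Sum.elim (fun i => X (Sum.inl i))
          (Sum.elim (fun j => X (Sum.inr j)) fun _ => 0)) r = p ∧
        aeval (Sum.elim (fun i => X (Sum.inl i))
          (Sum.elim (fun _ => 0) fun k => X (Sum.inr k))) r = q := by
  refine ⟨hh 1 (X (Sum.inl ⟨0, hl⟩)) (X (Sum.inr ⟨0, by omega⟩)) (X (Sum.inr ⟨1, by omega⟩))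
      (X (Sum.inr ⟨2, by omega⟩)) (X (Sum.inr ⟨3, by omega⟩)),
    (1 + X (Sum.inl ⟨0, hl⟩)) * (1 + 2 * X (Sum.inl ⟨0, hl⟩) + X (Sum.inr ⟨0, hn⟩)) *
      (1 + 3 * X (Sum.inl ⟨0, hl⟩)), ?_, ?_, ?_, ?_, ?_, ?_⟩
  · intro a lam h
    by_contra hi
    have h0 : lam ≠ 0 := by
      rintro rfl
      simp at hi
    have h1 : (lam⁻¹).im ≠ 0 := by
      rw [Complex.inv_im]
      exact div_ne_zero (neg_ne_zero.mpr hi) (fun h => h0 (Complex.normSq_eq_zero.mp h))
    rw [map_hh] at h
    simp only [map_one, aeval_X] at h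
    apply hh_ne _ h1 (a (Sum.inl ⟨0, hl⟩)) (a (Sum.inr ⟨0, by omega⟩)) (a (Sum.inr ⟨1, by omega⟩))
      (a (Sum.inr ⟨2, by omega⟩)) (a (Sum.inr ⟨3, by omega⟩))
    apply mul_left_cancel₀ (pow_ne_zero 3 h0)
    rw [mul_zero, ← h]
    simp only [hh, cc]
    field_simp
  · intro a lam h
    by_contra hi
    simp only [map_mul, map_add, map_one, map_ofNat, aeval_X] at h
    have k1 := lin_ne lam hi (a (Sum.inl ⟨0, hl⟩))
    have k2 := lin_ne lam hi (2 * a (Sum.inl ⟨0, hl⟩) + a (Sum.inr ⟨0, hn⟩))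
    have k3 := lin_ne lam hi (3 * a (Sum.inl ⟨0, hl⟩))
    apply mul_ne_zero (mul_ne_zero k1 k2) k3
    rw [← h]
    push_cast
    ring
  · apply hh_deg <;> simp
  · have h1 : (1 : MvPolynomial (Fin l ⊕ Fin n) ℝ).totalDegree ≤ 1 := by simp
    have hx : ∀ s, (X s : MvPolynomial (Fin l ⊕ Fin n) ℝ).totalDegree ≤ 1 := by simp
    exact dmul (dmul (dadd h1 (hx _)) (dadd (dadd h1 (dnum 2 (hx _))) (hx _)))
      (dadd h1 (dnum 3 (hx _)))
  · rw [map_hh]
    simp [hh, cc, map_ofNat]
  · rintro ⟨r, hr, hp, hq⟩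
    have ev : ∀ v : Fin 6 → ℂ, aeval v (aeval (fun s => (ψ l m n s).elim 0 X) r :
        MvPolynomial (Fin 6) ℝ) = aeval (fun s => (ψ l m n s).elim 0 v) r := by
      intro v
      rw [← AlgHom.comp_apply, comp_aeval]
      congr 2
      funext s
      cases ψ l m n s <;> simp
    refine core (aeval (fun s => (ψ l m n s).elim 0 X) r) ?_ ?_ ?_
    · intro a lam h
      rw [ev] at h
      apply hr (fun s => (ψ l m n s).elim 0 a) lam
      rw [← h]
      congr 2
      funext s
      cases ψ l m n s <;> simp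
    · intro v hv
      have := congrArg (aeval (Sum.elim (fun i => (ψ l m n (Sum.inl i)).elim 0 v)
        fun j => (ψ l m n (Sum.inr (Sum.inl j))).elim 0 v)) hp
      rw [← AlgHom.comp_apply, comp_aeval, map_hh] at this
      rw [ev]
      convert this using 3
      · funext s
        rcases s with i | j | k
        · simp
        · simp
        · simp only [ψ]
          split_ifs <;> simp [hv]
      all_goals simp [ψ]
    · intro v h1 h2 h3 h4
      have := congrArg (aeval (Sum.elim (fun i => (ψ l m n (Sum.inl i)).elim 0 v)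
        fun k => (ψ l m n (Sum.inr (Sum.inr k))).elim 0 v)) hq
      rw [← AlgHom.comp_apply, comp_aeval] at this
      rw [ev]
      convert this using 3
      · funext s
        rcases s with i | j | k
        · simp
        · simp only [ψ]
          split_ifs with h
          · obtain ⟨j, hj⟩ := j
            simp only at h
            interval_cases j <;> simp [h1, h2, h3, h4]
          · simp
        · simp
      all_goals simp [ψ, map_ofNat]

end Pool.Agent.Results.MP_eea824_ag.OneSharedCubic
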